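import Pool.Agent.H82.ER.Stm

set_option autoImplicit false

/-!
# Ergodicity of irrational polygonal billiards: the cut-off first integral is regular (E16)
-/

namespace Pool.Agent.H53.ER

open MeasureTheory Set Metric Filter Topology H82.Bil H87.BP H87.VA H82.ER

variable {T : Table}

lemma rr_bdd {Λ : ℝ} (hΛ : 0 < Λ) (a : ℂ × Dir) :
    BddBelow {c : ℝ | ∃ (w : List T.ι) (n : ℕ) (t : ℝ) (b : ℂ × Dir),
      (Reach T w n a t b ∨ Reach T w n (rv a) t b) ∧ c = t / Λ + infDist b.1 T.V} := by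
  refine ⟨0, ?_⟩
  rintro c ⟨w, n, t, b, h, rfl⟩
  have ht : 0 ≤ t := by
    rcases h with h | h
    · exact h.nonneg
    · exact h.nonneg
  exact add_nonneg (div_nonneg ht hΛ.le) infDist_nonneg

lemma rr_le {Λ : ℝ} (hΛ : 0 < Λ) (a : ℂ × Dir) : rr T Λ a ≤ infDist a.1 T.V :=
  csInf_le (rr_bdd hΛ a) ⟨[], 0, 0, a, Or.inl (Reach.nil a), by simp⟩

lemma GG_in {n : ℕ} {ρ Λ : ℝ} {F : ℂ × Dir → ℝ} {a : ℂ × Dir} (h : a.1 ∈ T.U) :
    GG T n ρ Λ F a = Lc n ρ (rr T Λ a) * F a := by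
  rw [H82.ER.GG, if_pos h]

lemma GG_out {n : ℕ} {ρ Λ : ℝ} {F : ℂ × Dir → ℝ} {a : ℂ × Dir} (h : a.1 ∉ T.U) :
    GG T n ρ Λ F a = 0 := by
  rw [H82.ER.GG, if_neg h]

lemma GG_zero (hL : PieceL) {n : ℕ} {ρ Λ : ℝ} (hn : 1 ≤ n) (hρ : 0 < ρ) (hΛ : 0 < Λ)
    {F : ℂ × Dir → ℝ} {a : ℂ × Dir} (h : infDist a.1 T.V ≤ ρ) : GG T n ρ Λ F a = 0 := by
  by_cases hU : a.1 ∈ T.U
  · rw [GG_in hU, (hL n ρ hn hρ).2.2.1 _ ((rr_le hΛ a).trans h), zero_mul]
  · exact GG_out hU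

lemma Lc_abs (hL : PieceL) {n : ℕ} {ρ : ℝ} (hn : 1 ≤ n) (hρ : 0 < ρ) (r : ℝ) :
    |Lc n ρ r| ≤ 1 := by
  rw [abs_of_nonneg ((hL n ρ hn hρ).1 r)]
  exact (hL n ρ hn hρ).2.1 r

lemma GG_abs (hL : PieceL) {n : ℕ} {ρ Λ : ℝ} (hn : 1 ≤ n) (hρ : 0 < ρ)
    {F : ℂ × Dir → ℝ} {M : ℝ} (hF : ∀ a, |F a| ≤ M) (a : ℂ × Dir) : |GG T n ρ Λ F a| ≤ M := by
  by_cases hU : a.1 ∈ T.U
  · rw [GG_in hU, abs_mul]
    calc |Lc n ρ (rr T Λ a)| * |F a| ≤ 1 * |F a| := by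
          gcongr; exact Lc_abs hL hn hρ _
      _ ≤ M := by rw [one_mul]; exact hF a
  · rw [GG_out hU, abs_zero]
    exact (abs_nonneg _).trans (hF a)

lemma lc_nonneg {n : ℕ} {ρ r : ℝ} (hρ : 0 < ρ) : 0 ≤ lc n ρ r := by
  unfold lc
  split_ifs with h
  · have : 0 < r := lt_of_lt_of_le hρ h.1
    positivity
  · exact le_rfl

lemma prod_diff {l1 l0 f1 f0 : ℝ} : |l1 * f1 - l0 * f0| ≤ |l1| * |f1 - f0| + |f0| * |l1 - l0| := by
  have : l1 * f1 - l0 * f0 = l1 * (f1 - f0) + f0 * (l1 - l0) := by ring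
  rw [this, ← abs_mul, ← abs_mul]
  exact abs_add_le _ _

/-- the derivative of the cut-off function times `F` in the direction `η` -/
lemma evt (hL : PieceL) {n : ℕ} {ρ Λ M : ℝ} (hn : 1 ≤ n) (hρ : 0 < ρ)
    {F : ℂ × Dir → ℝ} (hF : ∀ a, |F a| ≤ M) {x : ℂ} {θ η : Dir} {D d κ c : ℝ} (hxU : x ∈ T.U)
    (hD : HasDerivAt (fun s : ℝ => F (x + s * e η, θ)) D 0) (hDd : |D| ≤ d) (hκ : 0 ≤ κ)
    (hr : ∀ᶠ h : ℝ in 𝓝[>] (0 : ℝ), |rr T Λ (x + (h : ℂ) * e η, θ) - rr T Λ (x, θ)| ≤ κ * h)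
    (hc : M * lc n ρ (rr T Λ (x, θ)) * κ + d < c) :
    ∀ᶠ h : ℝ in 𝓝[>] (0 : ℝ),
      |GG T n ρ Λ F (x + (h : ℂ) * e η, θ) - GG T n ρ Λ F (x, θ)| ≤ c * h := by
  have hM : 0 ≤ M := (abs_nonneg _).trans (hF (x, θ))
  set r0 := rr T Λ (x, θ) with hr0
  set l := lc n ρ r0 with hl
  have hl0 : 0 ≤ l := lc_nonneg hρ
  set gap := c - (M * l * κ + d) with hgap
  have hgap0 : 0 < gap := by rw [hgap]; linarith
  have hMk : 0 < M * κ + 1 := by positivity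
  set c1 := l + gap / (2 * (M * κ + 1)) with hc1
  have hc1l : l < c1 := by
    rw [hc1]
    have : 0 < gap / (2 * (M * κ + 1)) := by positivity
    linarith
  have hc10 : 0 ≤ c1 := hl0.trans hc1l.le
  have hsum : M * c1 * κ + (d + gap / 2) ≤ c := by
    have h1 : M * κ * (gap / (2 * (M * κ + 1))) ≤ gap / 2 := by
      rw [show M * κ * (gap / (2 * (M * κ + 1))) = (M * κ) / (M * κ + 1) * (gap / 2) by
        field_simp]
      have : (M * κ) / (M * κ + 1) ≤ 1 := by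
        rw [div_le_one hMk]; linarith
      calc (M * κ) / (M * κ + 1) * (gap / 2) ≤ 1 * (gap / 2) := by gcongr
        _ = gap / 2 := one_mul _
    have h2 : M * c1 * κ = M * l * κ + M * κ * (gap / (2 * (M * κ + 1))) := by
      rw [hc1]; ring
    rw [h2]
    rw [hgap] at h1 ⊢
    linarith
  -- the point stays in `U`
  have hcont : Tendsto (fun h : ℝ => x + (h : ℂ) * e η) (𝓝[>] (0 : ℝ)) (𝓝 x) := by
    have h1 : Continuous (fun h : ℝ => x + (h : ℂ) * e η) := by fun_prop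
    have h2 := h1.tendsto 0
    simp only [Complex.ofReal_zero, zero_mul, add_zero] at h2
    exact h2.mono_left nhdsWithin_le_nhds
  have hU : ∀ᶠ h : ℝ in 𝓝[>] (0 : ℝ), x + (h : ℂ) * e η ∈ T.U :=
    hcont.eventually (T.isOpen.mem_nhds hxU)
  -- the value of `F`
  have hFe : ∀ᶠ h : ℝ in 𝓝[>] (0 : ℝ), |F (x + (h : ℂ) * e η, θ) - F (x, θ)| ≤
      (d + gap / 2) * h := by
    have h1 := (hasDerivAt_iff_isLittleO.1 hD).def (show (0 : ℝ) < gap / 2 by positivity)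
    have h2 : ∀ᶠ h : ℝ in 𝓝[>] (0 : ℝ), ‖F (x + (h : ℂ) * e η, θ) - F (x + ((0 : ℝ) : ℂ) * e η, θ) -
        (h - 0) • D‖ ≤ gap / 2 * ‖h - 0‖ := h1.filter_mono nhdsWithin_le_nhds
    filter_upwards [h2, self_mem_nhdsWithin] with h h3 h4
    have h4' : (0 : ℝ) < h := h4
    simp only [Complex.ofReal_zero, zero_mul, add_zero, sub_zero, smul_eq_mul,
      Real.norm_eq_abs, abs_of_pos h4'] at h3
    have h5 : |h * D| ≤ h * d := by
      rw [abs_mul, abs_of_pos h4']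
      gcongr
    calc |F (x + (h : ℂ) * e η, θ) - F (x, θ)|
        = |(F (x + (h : ℂ) * e η, θ) - F (x, θ) - h * D) + h * D| := by ring_nf
      _ ≤ |F (x + (h : ℂ) * e η, θ) - F (x, θ) - h * D| + |h * D| := abs_add_le _ _
      _ ≤ gap / 2 * h + h * d := add_le_add h3 h5
      _ = (d + gap / 2) * h := by ring
  -- the cut-off
  have hrt : Tendsto (fun h : ℝ => rr T Λ (x + (h : ℂ) * e η, θ)) (𝓝[>] (0 : ℝ)) (𝓝 r0) := by
    rw [tendsto_iff_norm_sub_tendsto_zero]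
    have h1 : Tendsto (fun h : ℝ => κ * h) (𝓝[>] (0 : ℝ)) (𝓝 0) := by
      have h2 : Tendsto (fun h : ℝ => κ * h) (𝓝 (0 : ℝ)) (𝓝 (κ * 0)) :=
        (continuous_const.mul continuous_id).tendsto 0
      rw [mul_zero] at h2
      exact h2.mono_left nhdsWithin_le_nhds
    refine squeeze_zero' (Eventually.of_forall fun h => norm_nonneg _) ?_ h1
    filter_upwards [hr] with h hh
    rw [Real.norm_eq_abs]
    exact hh
  have hLe := hrt.eventually ((hL n ρ hn hρ).2.2.2.2.2 r0 c1 hc1l)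
  filter_upwards [hU, hFe, hLe, hr, self_mem_nhdsWithin] with h h1 h2 h3 h4 h5
  have h5' : (0 : ℝ) < h := h5
  rw [GG_in (a := (x + (h : ℂ) * e η, θ)) h1, GG_in (a := (x, θ)) hxU]
  refine prod_diff.trans ?_
  have h6 : |Lc n ρ (rr T Λ (x + (h : ℂ) * e η, θ))| *
      |F (x + (h : ℂ) * e η, θ) - F (x, θ)| ≤ 1 * ((d + gap / 2) * h) :=
    mul_le_mul (Lc_abs hL hn hρ _) h2 (abs_nonneg _) zero_le_one
  have h7 : |Lc n ρ (rr T Λ (x + (h : ℂ) * e η, θ)) - Lc n ρ r0| ≤ c1 * (κ * h) :=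
    h3.trans (mul_le_mul_of_nonneg_left h4 hc10)
  have h8 : |F (x, θ)| * |Lc n ρ (rr T Λ (x + (h : ℂ) * e η, θ)) - Lc n ρ r0| ≤
      M * (c1 * (κ * h)) := mul_le_mul (hF _) h7 (abs_nonneg _) hM
  calc _ ≤ 1 * ((d + gap / 2) * h) + M * (c1 * (κ * h)) := add_le_add h6 h8
    _ = (M * c1 * κ + (d + gap / 2)) * h := by ring
    _ ≤ c * h := by gcongr

/-- the point moves in `U` -/
lemma evU {x : ℂ} (hx : x ∈ T.U) (η : Dir) :
    ∀ᶠ h : ℝ in 𝓝[>] (0 : ℝ), ∀ s : ℝ, 0 ≤ s → s ≤ h → x + (s : ℂ) * e η ∈ T.U := by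
  obtain ⟨δ, hδ, hb⟩ := Metric.isOpen_iff.1 T.isOpen x hx
  have : ∀ᶠ h : ℝ in 𝓝[>] (0 : ℝ), h < δ :=
    nhdsWithin_le_nhds (gt_mem_nhds hδ)
  filter_upwards [this] with h hh s hs0 hs1
  apply hb
  rw [mem_ball, dist_eq_norm, add_sub_cancel_left, norm_mul, norm_e, mul_one, Complex.norm_real,
    Real.norm_eq_abs, abs_of_nonneg hs0]
  linarith

/-- the increments near the vertices are zero -/
lemma evZ (hL : PieceL) {n : ℕ} {ρ Λ : ℝ} (hn : 1 ≤ n) (hρ : 0 < ρ) (hΛ : 0 < Λ)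
    {F : ℂ × Dir → ℝ} {x : ℂ} {θ η : Dir} {c : ℝ} (hc : 0 ≤ c) (hx : infDist x T.V < ρ) :
    ∀ᶠ h : ℝ in 𝓝[>] (0 : ℝ),
      |GG T n ρ Λ F (x + (h : ℂ) * e η, θ) - GG T n ρ Λ F (x, θ)| ≤ c * h := by
  have hcont : Tendsto (fun h : ℝ => infDist (x + (h : ℂ) * e η) T.V) (𝓝[>] (0 : ℝ))
      (𝓝 (infDist x T.V)) := by
    have h1 : Continuous (fun h : ℝ => infDist (x + (h : ℂ) * e η) T.V) :=
      (continuous_infDist_pt _).comp (by fun_prop)
    have h2 := h1.tendsto 0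
    simp only [Complex.ofReal_zero, zero_mul, add_zero] at h2
    exact h2.mono_left nhdsWithin_le_nhds
  filter_upwards [hcont.eventually (gt_mem_nhds hx), self_mem_nhdsWithin] with h h1 h2
  have h2' : (0 : ℝ) < h := h2
  rw [GG_zero hL hn hρ hΛ (a := (x + (h : ℂ) * e η, θ)) h1.le,
    GG_zero hL hn hρ hΛ (a := (x, θ)) hx.le, sub_zero, abs_zero]
  positivity

/-- the field `sb` of `Rg` -/
lemma sbG (hL : PieceL) (h1 : PieceR1) {F v : ℂ × Dir → ℝ} {N : Dir → ℝ} {M L ρ h0 : ℝ}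
    (hC : Cx T F v N M L (ρ / 2) h0) {n : ℕ} {Λ : ℝ} (hn : 1 ≤ n) (hΛ : 1 ≤ Λ) :
    ∀ x ∈ T.U, ∀ (θ : Dir) (c : ℝ),
      (open Classical in if x ∈ T.U then M * lc n ρ (rr T Λ (x, θ)) / Λ else 0) < c →
    ∀ᶠ h : ℝ in 𝓝[>] (0 : ℝ),
      |GG T n ρ Λ F (x + (h : ℂ) * e θ, θ) - GG T n ρ Λ F (x, θ)| ≤ c * h := by
  intro x hx θ c hc
  rw [if_pos hx] at hc
  have hρ : 0 < ρ := by have := hC.ρpos; linarith
  have hΛ0 : 0 < Λ := by linarith
  have hM : 0 ≤ M := (abs_nonneg _).trans (hC.Fb (x, θ))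
  have hl := lc_nonneg (n := n) (ρ := ρ) (r := rr T Λ (x, θ)) hρ
  have hc0 : 0 ≤ c := by
    have : 0 ≤ M * lc n ρ (rr T Λ (x, θ)) / Λ := by positivity
    linarith
  by_cases hd : infDist x T.V < ρ
  · exact evZ hL hn hρ hΛ0 hc0 hd
  · push Not at hd
    have hD := hC.der x hx (by linarith) θ θ
    refine evt hL hn hρ hC.Fb (D := (e (θ - θ)).im * v (x, θ)) (d := 0) (κ := 1 / Λ) hx hD ?_
      (by positivity) ?_ ?_
    · rw [sub_self]
      have : e (0 : Dir) = 1 := by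
        have := e_coe 0
        simpa using this
      rw [this]
      simp
    · filter_upwards [evU hx θ, self_mem_nhdsWithin] with h hh hp
      have hp' : (0 : ℝ) < h := hp
      have := h1 T Λ hΛ0 [] (x, θ) (x + (h : ℂ) * e θ, θ) h (Step.fl x θ h hp' hh)
      calc _ ≤ h / Λ := this
        _ = 1 / Λ * h := by ring
    · rw [add_zero]
      calc _ = M * lc n ρ (rr T Λ (x, θ)) / Λ := by ring
        _ < c := hc

/-- the field `gb` of `Rg` -/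
lemma gbG (hL : PieceL) (h2 : PieceR2) {F v : ℂ × Dir → ℝ} {N : Dir → ℝ} {M L ρ h0 : ℝ}
    (hC : Cx T F v N M L (ρ / 2) h0) {n : ℕ} {Λ : ℝ} (hn : 1 ≤ n) (hΛ : 1 ≤ Λ) :
    ∀ x ∈ T.U, ∀ (θ η : Dir) (c : ℝ),
      (open Classical in if x ∈ T.U ∧ ρ ≤ infDist x T.V then
        M * lc n ρ (rr T Λ (x, θ)) + |v (x, θ)| else 0) < c →
    ∀ᶠ h : ℝ in 𝓝[>] (0 : ℝ),
      |GG T n ρ Λ F (x + (h : ℂ) * e η, θ) - GG T n ρ Λ F (x, θ)| ≤ c * h := by
  intro x hx θ η c hc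
  have hρ : 0 < ρ := by have := hC.ρpos; linarith
  have hΛ0 : 0 < Λ := by linarith
  have hM : 0 ≤ M := (abs_nonneg _).trans (hC.Fb (x, θ))
  have hl := lc_nonneg (n := n) (ρ := ρ) (r := rr T Λ (x, θ)) hρ
  by_cases hd : infDist x T.V < ρ
  · rw [if_neg (fun hh => absurd hh.2 (not_le.2 hd))] at hc
    exact evZ hL hn hρ hΛ0 hc.le hd
  · push Not at hd
    rw [if_pos ⟨hx, hd⟩] at hc
    have hD := hC.der x hx (by linarith) θ η
    refine evt hL hn hρ hC.Fb (D := (e (η - θ)).im * v (x, θ)) (d := |v (x, θ)|) (κ := 1) hx hD ?_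
      zero_le_one ?_ (by rw [mul_one]; exact hc)
    · rw [abs_mul]
      have : |(e (η - θ)).im| ≤ 1 := by
        calc _ ≤ ‖e (η - θ)‖ := Complex.abs_im_le_norm _
          _ = 1 := norm_e _
      calc _ ≤ 1 * |v (x, θ)| := by gcongr
        _ = _ := one_mul _
    · filter_upwards [evU hx η, self_mem_nhdsWithin] with h hh hp
      have hp' : (0 : ℝ) < h := hp
      have hseg : segment ℝ (x + (h : ℂ) * e η) x ⊆ T.U := by
        rw [segment_symm, segment_eq_image']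
        rintro z ⟨s, ⟨hs0, hs1⟩, rfl⟩
        have := hh (s * h) (by positivity) (by nlinarith)
        simp only [add_sub_cancel_left, Complex.real_smul]
        convert this using 1
        push_cast; ring
      have := h2 T Λ hΛ0 θ (x + (h : ℂ) * e η) x hseg
      refine this.trans ?_
      rw [add_sub_cancel_left, norm_mul, norm_e, mul_one, Complex.norm_real, Real.norm_eq_abs,
        abs_of_pos hp', one_mul]

/-- the field `step` of `Rg` -/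
lemma stepG (hL : PieceL) (h1 : PieceR1) {F v : ℂ × Dir → ℝ} {N : Dir → ℝ} {M L ρ h0 : ℝ}
    (hC : Cx T F v N M L (ρ / 2) h0) {n : ℕ} {Λ : ℝ} (hn : 1 ≤ n) (hΛ : 1 ≤ Λ) :
    ∀ (w : List T.ι) (a b : ℂ × Dir) (t : ℝ), Step T w a t b →
      |GG T n ρ Λ F b - GG T n ρ Λ F a| ≤ (L + M / ρ + 2 * M / (min h0 (ρ / 4))) * t := by
  intro w a b t hs
  have hρ : 0 < ρ := by have := hC.ρpos; linarith
  have hΛ0 : 0 < Λ := by linarith
  have hM : 0 ≤ M := (abs_nonneg _).trans (hC.Fb a)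
  have hL0 : 0 ≤ L := (abs_nonneg _).trans (hC.vb a)
  have ht : 0 < t := hs.pos
  have hm : 0 < min h0 (ρ / 4) := lt_min hC.h0pos (by linarith)
  have hA : 0 ≤ L * t := by positivity
  have hB : 0 ≤ M / ρ * t := by positivity
  have hD : 0 ≤ 2 * M / (min h0 (ρ / 4)) * t := by positivity
  rcases le_or_gt (min h0 (ρ / 4)) t with hbig | hsmall
  · have h3 : |GG T n ρ Λ F b - GG T n ρ Λ F a| ≤ 2 * M := by
      calc _ ≤ |GG T n ρ Λ F b| + |GG T n ρ Λ F a| := abs_sub _ _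
        _ ≤ M + M := add_le_add (GG_abs hL hn hρ hC.Fb b) (GG_abs hL hn hρ hC.Fb a)
        _ = 2 * M := by ring
    have h4 : 2 * M ≤ 2 * M / (min h0 (ρ / 4)) * t := by
      rw [div_mul_eq_mul_div, le_div_iff₀ hm]
      exact mul_le_mul_of_nonneg_left hbig (by positivity)
    calc _ ≤ 2 * M := h3
      _ ≤ 2 * M / (min h0 (ρ / 4)) * t := h4
      _ ≤ _ := by nlinarith
  · have ht0 : t < h0 := hsmall.trans_le (min_le_left _ _)
    have ht1 : t < ρ / 4 := hsmall.trans_le (min_le_right _ _)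
    have hmem := hs.memU
    rcases lt_or_ge (infDist a.1 T.V) (ρ / 2) with hd | hd
    · have h5 : infDist b.1 T.V ≤ ρ := by
        have h6 : infDist b.1 T.V ≤ infDist a.1 T.V + dist b.1 a.1 := infDist_le_infDist_add_dist
        have h7 : dist b.1 a.1 ≤ t := by rw [dist_eq_norm]; exact hs.lip
        linarith
      rw [GG_zero hL hn hρ hΛ0 h5, GG_zero hL hn hρ hΛ0 (a := a) (by linarith), sub_zero, abs_zero]
      nlinarith
    · have hF : |F b - F a| ≤ L * t := by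
        obtain ⟨o, ho⟩ : ∃ o : Option T.ι, w = wd T o := by
          cases hs with
          | fl x θ t ht h => exact ⟨none, rfl⟩
          | bo x θ t ht i p ρ s N hx hxU hs hy hys => exact ⟨some i, rfl⟩
        subst ho
        have hb := hs.eq'
        have hy : ((a.1, (a.2, a.2)) : P3) ∈ SS T o t := by
          show Step T (wd T o) (a.1, a.2) t (Phi T (wd T o) (a.1, a.2) t)
          have : Phi T (wd T o) (a.1, a.2) t = b := hb.symm
          rw [this]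
          exact hs
        have := hC.b3 o t ht0 _ hy hd
        have hb2 : b = ((Ph T o t (a.1, (a.2, a.2))).1, (Ph T o t (a.1, (a.2, a.2))).2.1) := hb
        rw [hb2]
        exact this
      have hR := h1 T Λ hΛ0 w a b t hs
      have hLc : |Lc n ρ (rr T Λ b) - Lc n ρ (rr T Λ a)| ≤ t / ρ := by
        refine ((hL n ρ hn hρ).2.2.2.2.1 _ _).trans ?_
        gcongr
        refine hR.trans ?_
        exact div_le_self ht.le hΛ
      rw [GG_in hmem.2, GG_in hmem.1]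
      refine prod_diff.trans ?_
      have h8 : |Lc n ρ (rr T Λ b)| * |F b - F a| ≤ 1 * (L * t) :=
        mul_le_mul (Lc_abs hL hn hρ _) hF (abs_nonneg _) zero_le_one
      have h9 : |F a| * |Lc n ρ (rr T Λ b) - Lc n ρ (rr T Λ a)| ≤ M * (t / ρ) :=
        mul_le_mul (hC.Fb a) hLc (abs_nonneg _) hM
      have h10 : M * (t / ρ) = M / ρ * t := by ring
      nlinarith

end Pool.Agent.H53.ER
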